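import Pool.Agent.helper50.MA.SpecI

/-!
# ma:I2  (MP_0012ff_an).  Topology of `Bl`: compact, Hausdorff, connected.
-/

set_option autoImplicit false

open MeasureTheory Set Filter Topology Complex Matrix
open scoped ContDiff Real Manifold

namespace DMAProblem

/-- entries of an orthogonal projector onto a line are bounded by one -/
lemma I2_bound {n : ℕ} (P : Matrix (Fin n) (Fin n) ℂ) (h : IsLine P) (i j : Fin n) : ‖P i j‖ ≤ 1 := by
  obtain ⟨h1, h2, -⟩ := h
  have hc : ∀ a b, P a b = (starRingEnd ℂ) (P b a) := by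
    intro a b
    have := congrFun (congrFun h1 a) b
    rw [← this]; rfl
  have hii : ∀ a, (P a a).re = ∑ b, ‖P a b‖ ^ 2 := by
    intro a
    have h3 : P a a = ∑ b, P a b * P b a := by
      have := congrFun (congrFun h2 a) a
      rw [← this]
      simp [Matrix.mul_apply]
    rw [h3, Complex.re_sum]
    refine Finset.sum_congr rfl fun b _ => ?_
    rw [hc b a, Complex.mul_conj, Complex.ofReal_re, Complex.normSq_eq_norm_sq]
  have hd : ∀ a, (P a a).re ≤ 1 := by
    intro a
    have h4 : ‖P a a‖ ^ 2 ≤ (P a a).re := by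
      rw [hii a]
      exact Finset.single_le_sum (f := fun b => ‖P a b‖ ^ 2) (fun b _ => by positivity) (Finset.mem_univ a)
    have h5 : (P a a).re ≤ ‖P a a‖ := (le_abs_self _).trans (Complex.abs_re_le_norm _)
    nlinarith [norm_nonneg (P a a)]
  have h6 : ‖P i j‖ ^ 2 ≤ 1 := by
    refine le_trans ?_ (hd i)
    rw [hii i]
    exact Finset.single_le_sum (f := fun b => ‖P i b‖ ^ 2) (fun b _ => by positivity) (Finset.mem_univ j)
  nlinarith [norm_nonneg (P i j)]

lemma I2_closed_line {n : ℕ} : IsClosed {P : Matrix (Fin n) (Fin n) ℂ | IsLine P} := by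
  have : {P : Matrix (Fin n) (Fin n) ℂ | IsLine P} =
      {P | P.conjTranspose = P} ∩ ({P | P * P = P} ∩ {P | P.trace = 1}) := by
    ext P; rfl
  rw [this]
  refine IsClosed.inter ?_ (IsClosed.inter ?_ ?_)
  · exact isClosed_eq (continuous_id.matrix_conjTranspose) continuous_id
  · exact isClosed_eq (continuous_id.matrix_mul continuous_id) continuous_id
  · exact isClosed_eq (continuous_id.matrix_trace) continuous_const

/-- the set of matrices with all entries in the closed unit disc is compact -/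
lemma I2_cpt {n : ℕ} : IsCompact {P : Matrix (Fin n) (Fin n) ℂ | ∀ i j, ‖P i j‖ ≤ 1} := by
  have h : IsCompact (Set.univ.pi (fun _ : Fin n => Set.univ.pi (fun _ : Fin n => Metric.closedBall (0 : ℂ) 1))) :=
    isCompact_univ_pi fun _ => isCompact_univ_pi fun _ => isCompact_closedBall _ _
  have h2 : {P : Matrix (Fin n) (Fin n) ℂ | ∀ i j, ‖P i j‖ ≤ 1} =
      (Set.univ.pi (fun _ : Fin n => Set.univ.pi (fun _ : Fin n => Metric.closedBall (0 : ℂ) 1))) := by
    apply Set.ext
    intro P
    constructor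
    · intro hP i _ j _
      exact mem_closedBall_zero_iff.mpr (hP i j)
    · intro hP i j
      exact mem_closedBall_zero_iff.mp (hP i (Set.mem_univ _) j (Set.mem_univ _))
  rw [h2]
  exact h

lemma I2_compact : CompactSpace Bl := by
  have hcl : IsClosed {q : Matrix (Fin 3) (Fin 3) ℂ × Matrix (Fin 2) (Fin 2) ℂ |
      IsLine q.1 ∧ IsLine q.2 ∧ (1 - q.2) * q.1.submatrix (Fin.castSucc : Fin 2 → Fin 3) id = 0} := by
    have : {q : Matrix (Fin 3) (Fin 3) ℂ × Matrix (Fin 2) (Fin 2) ℂ |
      IsLine q.1 ∧ IsLine q.2 ∧ (1 - q.2) * q.1.submatrix (Fin.castSucc : Fin 2 → Fin 3) id = 0} =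
      (Prod.fst ⁻¹' {P | IsLine P}) ∩ ((Prod.snd ⁻¹' {P | IsLine P}) ∩
        {q : Matrix (Fin 3) (Fin 3) ℂ × Matrix (Fin 2) (Fin 2) ℂ |
          (1 - q.2) * q.1.submatrix (Fin.castSucc : Fin 2 → Fin 3) id = 0}) := by
      ext q; rfl
    rw [this]
    refine IsClosed.inter (I2_closed_line.preimage continuous_fst)
      (IsClosed.inter (I2_closed_line.preimage continuous_snd) ?_)
    refine isClosed_eq ?_ continuous_const
    exact (continuous_const.sub continuous_snd).matrix_mul (continuous_fst.matrix_submatrix _ _)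
  have hK : IsCompact {q : Matrix (Fin 3) (Fin 3) ℂ × Matrix (Fin 2) (Fin 2) ℂ |
      IsLine q.1 ∧ IsLine q.2 ∧ (1 - q.2) * q.1.submatrix (Fin.castSucc : Fin 2 → Fin 3) id = 0} := by
    refine (I2_cpt.prod I2_cpt).of_isClosed_subset hcl ?_
    rintro q ⟨h1, h2, -⟩
    exact ⟨fun i j => I2_bound _ h1 i j, fun i j => I2_bound _ h2 i j⟩
  exact isCompact_iff_compactSpace.mp hK

lemma I2_t2 : T2Space Bl := inferInstanceAs (T2Space (Subtype _))

lemma I2_norm_ne {n : ℕ} (v : Fin n → ℂ) (i : Fin n) (h : v i ≠ 0) :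
    ((∑ k, ‖v k‖ ^ 2 : ℝ) : ℂ) ≠ 0 := by
  have h1 : 0 < ∑ k, ‖v k‖ ^ 2 :=
    Finset.sum_pos' (fun k _ => by positivity) ⟨i, Finset.mem_univ i, by positivity⟩
  exact_mod_cast h1.ne'

theorem I2 (h1 : I1_stmt) : I2_stmt := by
  refine ⟨I2_compact, I2_t2, ?_⟩
  obtain ⟨ha, hb, hc, hd, he⟩ := h1
  -- the parametrisations
  let F : Fin 4 → C2 → Bl := fun k y => ⟨(proj (parl k y), proj (parm k y)), ha k y⟩
  have hFc : ∀ k, Continuous (F k) := fun k => Continuous.subtype_mk (hd k).2.2 _
  have hrange : ∀ k, range (F k) = dom k := by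
    intro k
    ext x
    constructor
    · rintro ⟨y, rfl⟩
      exact (hb k y (F k y) rfl).1
    · intro hx
      exact ⟨coord k x, Subtype.ext (hc k x hx).symm⟩
  have hpre : ∀ k, IsPreconnected (dom k) := by
    intro k
    rw [← hrange k]
    exact isPreconnected_range (hFc k)
  -- a common point
  let x0 : Bl := F 2 (1, 1)
  have hx0 : ∀ k, x0 ∈ dom k := by
    have e1 : ∀ i j, x0.1.1 i j ≠ 0 := by
      intro i j
      have hn := I2_norm_ne (parl 2 ((1, 1) : C2)) 0 (by simp [parl])
      change proj (parl 2 ((1, 1) : C2)) i j ≠ 0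
      simp only [proj, Matrix.of_apply]
      refine div_ne_zero (mul_ne_zero ?_ ?_) hn
      · fin_cases i <;> simp [parl]
      · fin_cases j <;> simp [parl]
    have e2 : ∀ i j, x0.1.2 i j ≠ 0 := by
      intro i j
      have hn := I2_norm_ne (parm 2 ((1, 1) : C2)) 0 (by simp [parm])
      change proj (parm 2 ((1, 1) : C2)) i j ≠ 0
      simp only [proj, Matrix.of_apply]
      refine div_ne_zero (mul_ne_zero ?_ ?_) hn
      · fin_cases i <;> simp [parm]
      · fin_cases j <;> simp [parm]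
    intro k
    fin_cases k
    · exact ⟨e1 2 2, e2 0 0⟩
    · exact ⟨e1 2 2, e2 1 1⟩
    · exact e1 0 0
    · exact e1 1 1
  have huniv : (⋃ k, dom k) = univ := by
    ext x
    simp only [mem_iUnion, mem_univ, iff_true]
    exact he x
  have hpc : IsPreconnected (univ : Set Bl) := by
    rw [← huniv]
    exact isPreconnected_iUnion ⟨x0, mem_iInter.mpr hx0⟩ hpre
  exact { isPreconnected_univ := hpc, toNonempty := ⟨x0⟩ }

end DMAProblem
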