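import Pool.Agent.helper50.MA.Spec1

/-!
# PROJECT ma (MP_0012ff_an), module C2: pointwise algebra of the Levi form
-/

set_option autoImplicit false

open MeasureTheory Set Filter Topology Complex
open scoped ContDiff Real

namespace MAP

noncomputable section

/-! ### algebra -/

theorem C2_pair (A C B B' A2 C2 D D' : ℝ) (hA : 0 ≤ A) (hC : 0 ≤ C) (hA2 : 0 ≤ A2) (hC2 : 0 ≤ C2)
    (h1 : B ^ 2 + B' ^ 2 ≤ A * C) (h2 : D ^ 2 + D' ^ 2 ≤ A2 * C2) :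
    0 ≤ A * C2 + C * A2 - 2 * (B * D) - 2 * (B' * D') := by
  have h3 : (B * D + B' * D') ^ 2 ≤ (B ^ 2 + B' ^ 2) * (D ^ 2 + D' ^ 2) := by
    nlinarith [sq_nonneg (B * D' - B' * D)]
  have h4 : (B ^ 2 + B' ^ 2) * (D ^ 2 + D' ^ 2) ≤ (A * C) * (A2 * C2) :=
    mul_le_mul h1 h2 (by positivity) (by positivity)
  have h5 : (2 * (B * D + B' * D')) ^ 2 ≤ (A * C2 + C * A2) ^ 2 := by
    nlinarith [sq_nonneg (A * C2 - C * A2)]
  have h6 : 0 ≤ A * C2 + C * A2 := by positivity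
  have h7 := (abs_le.mp (abs_le_of_sq_le_sq h5 h6)).2
  linarith

theorem C2_pair_pos (A C B B' A2 C2 D D' : ℝ) (hA : 0 < A) (hC : 0 < C) (hA2 : 0 < A2)
    (hC2 : 0 < C2) (h1 : B ^ 2 + B' ^ 2 < A * C) (h2 : D ^ 2 + D' ^ 2 < A2 * C2) :
    0 < A * C2 + C * A2 - 2 * (B * D) - 2 * (B' * D') := by
  have h3 : (B * D + B' * D') ^ 2 ≤ (B ^ 2 + B' ^ 2) * (D ^ 2 + D' ^ 2) := by
    nlinarith [sq_nonneg (B * D' - B' * D)]
  have h4 : (B ^ 2 + B' ^ 2) * (D ^ 2 + D' ^ 2) < (A * C) * (A2 * C2) :=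
    mul_lt_mul'' h1 h2 (by positivity) (by positivity)
  have h5 : (2 * (B * D + B' * D')) ^ 2 < (A * C2 + C * A2) ^ 2 := by
    nlinarith [sq_nonneg (A * C2 - C * A2)]
  have h6 : 0 ≤ A * C2 + C * A2 := by positivity
  have h7 := (abs_lt.mp (abs_lt_of_sq_lt_sq h5 h6)).2
  linarith

theorem C2_psd (A C B B' : ℝ)
    (h : ∀ a1 b1 a2 b2 : ℝ, 0 ≤ (a1 ^ 2 + b1 ^ 2) * A + (a2 ^ 2 + b2 ^ 2) * C +
      2 * (a1 * a2 + b1 * b2) * B + 2 * (a1 * b2 - b1 * a2) * B') :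
    0 ≤ A ∧ 0 ≤ C ∧ B ^ 2 + B' ^ 2 ≤ A * C := by
  have hA : 0 ≤ A := by have := h 1 0 0 0; nlinarith
  have hC : 0 ≤ C := by have := h 0 0 1 0; nlinarith
  refine ⟨hA, hC, ?_⟩
  rcases hC.lt_or_eq with hC | hC
  · have h1 := h C 0 (-B) (-B')
    have h2 : 0 ≤ C * (A * C - (B ^ 2 + B' ^ 2)) := by nlinarith
    have h3 := nonneg_of_mul_nonneg_right h2 hC
    linarith
  · rw [← hC]
    have h0 : B ^ 2 + B' ^ 2 ≤ 0 := by
      have h1 := h 1 0 (-B * (A + 1)) (-B' * (A + 1))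
      rw [← hC] at h1
      by_contra hcon
      push Not at hcon
      have h2 := h 1 0 (-B * (A / (B ^ 2 + B' ^ 2))) (-B' * (A / (B ^ 2 + B' ^ 2)))
      rw [← hC] at h2
      have h3 : (A / (B ^ 2 + B' ^ 2)) * (B ^ 2 + B' ^ 2) = A := by
        field_simp
      have hA0 : A = 0 := by nlinarith
      rw [hA0] at h1
      nlinarith
    nlinarith

theorem C2_pd (A C B B' : ℝ)
    (h : ∀ a1 b1 a2 b2 : ℝ, ¬ (a1 = 0 ∧ b1 = 0 ∧ a2 = 0 ∧ b2 = 0) →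
      0 < (a1 ^ 2 + b1 ^ 2) * A + (a2 ^ 2 + b2 ^ 2) * C +
      2 * (a1 * a2 + b1 * b2) * B + 2 * (a1 * b2 - b1 * a2) * B') :
    0 < A ∧ 0 < C ∧ B ^ 2 + B' ^ 2 < A * C := by
  have hA : 0 < A := by have := h 1 0 0 0 (by simp); nlinarith
  have hC : 0 < C := by have := h 0 0 1 0 (by simp); nlinarith
  refine ⟨hA, hC, ?_⟩
  have h1 := h C 0 (-B) (-B') (by intro h0; exact hC.ne' h0.1)
  have h2 : 0 < C * (A * C - (B ^ 2 + B' ^ 2)) := by nlinarith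
  have h3 := (pos_iff_pos_of_mul_pos h2).mp hC
  linarith

/-! ### the Levi form in coordinates -/

theorem C2_lin (u : C2 → ℝ) (x : C2) (ξ ξ' η : C2) (a b : ℝ) :
    D2 u x (a • ξ + b • ξ') η = a * D2 u x ξ η + b * D2 u x ξ' η := by
  simp [D2]

theorem C2_lin' (u : C2 → ℝ) (x : C2) (ξ η η' : C2) (a b : ℝ) :
    D2 u x ξ (a • η + b • η') = a * D2 u x ξ η + b * D2 u x ξ η' := by
  simp [D2]

theorem C2_symm (u : C2 → ℝ) (x : C2) (hu : ContDiffAt ℝ 2 u x) (ξ η : C2) :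
    D2 u x ξ η = D2 u x η ξ :=
  hu.isSymmSndFDerivAt (by simp) ξ η

theorem C2_lap (u : C2 → ℝ) (x : C2) (hu : ContDiffAt ℝ 2 u x) (a1 b1 a2 b2 : ℝ) :
    lap u x ((⟨a1, b1⟩ : ℂ), (⟨a2, b2⟩ : ℂ)) = (a1 ^ 2 + b1 ^ 2) * hA u x +
      (a2 ^ 2 + b2 ^ 2) * hC u x + 2 * (a1 * a2 + b1 * b2) * hB u x +
      2 * (a1 * b2 - b1 * a2) * hB' u x := by
  have h1 : (((⟨a1, b1⟩ : ℂ), (⟨a2, b2⟩ : ℂ)) : C2) =
      (1 : ℝ) • (a1 • e1 + b1 • (I • e1)) + (1 : ℝ) • (a2 • e2 + b2 • (I • e2)) := by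
    ext <;> simp [e1, e2] <;> apply Complex.ext <;> simp
  have h2 : I • (((⟨a1, b1⟩ : ℂ), (⟨a2, b2⟩ : ℂ)) : C2) =
      (1 : ℝ) • (a1 • (I • e1) + (-b1) • e1) + (1 : ℝ) • (a2 • (I • e2) + (-b2) • e2) := by
    ext <;> simp [e1, e2] <;> apply Complex.ext <;> simp
  have h3 : I • (I • e1) = -e1 := by ext <;> simp [e1]
  have h4 : I • (I • e2) = -e2 := by ext <;> simp [e2]
  rw [lap, h2, h1]
  simp only [C2_lin, C2_lin']
  rw [hA, hC, hB, hB', lap, lap]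
  rw [C2_symm u x hu (I • e1) e1, C2_symm u x hu (I • e2) e2, C2_symm u x hu e2 e1,
    C2_symm u x hu (I • e2) e1, C2_symm u x hu e2 (I • e1), C2_symm u x hu (I • e2) (I • e1)]
  ring

theorem C2_lap' (u : C2 → ℝ) (x : C2) (hu : ContDiffAt ℝ 2 u x) (ξ : C2) :
    lap u x ξ = (ξ.1.re ^ 2 + ξ.1.im ^ 2) * hA u x +
      (ξ.2.re ^ 2 + ξ.2.im ^ 2) * hC u x + 2 * (ξ.1.re * ξ.2.re + ξ.1.im * ξ.2.im) * hB u x +
      2 * (ξ.1.re * ξ.2.im - ξ.1.im * ξ.2.re) * hB' u x := by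
  rw [← C2_lap u x hu]

/-- coefficients of a nonnegative form -/
theorem C2_coef (u : C2 → ℝ) (x : C2) (hu : ContDiffAt ℝ 2 u x) (h : ∀ ξ, 0 ≤ lap u x ξ) :
    0 ≤ hA u x ∧ 0 ≤ hC u x ∧ hB u x ^ 2 + hB' u x ^ 2 ≤ hA u x * hC u x := by
  refine C2_psd _ _ _ _ fun a1 b1 a2 b2 => ?_
  rw [← C2_lap u x hu]
  exact h _

/-! ### derivatives of combinations -/

theorem C2_diff (u : C2 → ℝ) (x : C2) (hu : ContDiffAt ℝ 2 u x) :
    (∀ᶠ y in 𝓝 x, DifferentiableAt ℝ u y) ∧ DifferentiableAt ℝ (fderiv ℝ u) x := by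
  constructor
  · have := hu.eventually (by simp)
    filter_upwards [this] with y hy
    exact hy.differentiableAt (by simp)
  · have := hu.fderiv_right (m := 1) (by norm_num)
    exact this.differentiableAt (by simp)

theorem C2_comb (u u' : C2 → ℝ) (x : C2) (a b : ℝ) (hu : ContDiffAt ℝ 2 u x)
    (hu' : ContDiffAt ℝ 2 u' x) (ξ η : C2) :
    D2 (fun y => a * u y + b * u' y) x ξ η = a * D2 u x ξ η + b * D2 u' x ξ η := by
  obtain ⟨h1, h2⟩ := C2_diff u x hu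
  obtain ⟨h1', h2'⟩ := C2_diff u' x hu'
  have h3 : fderiv ℝ (fun y => a * u y + b * u' y) =ᶠ[𝓝 x]
      fun y => a • fderiv ℝ u y + b • fderiv ℝ u' y := by
    filter_upwards [h1, h1'] with y hy hy'
    have e := ((hy.hasFDerivAt.const_mul a).add (hy'.hasFDerivAt.const_mul b)).fderiv
    exact e
  unfold D2
  rw [h3.fderiv_eq]
  have e2 := ((h2.hasFDerivAt.const_smul a).add (h2'.hasFDerivAt.const_smul b)).fderiv
  have e3 : fderiv ℝ (fun y => a • fderiv ℝ u y + b • fderiv ℝ u' y) x =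
    a • fderiv ℝ (fderiv ℝ u) x + b • fderiv ℝ (fderiv ℝ u') x := e2
  rw [e3]
  simp

theorem C2_sq (f : C2 → ℝ) (x : C2) (hf : ContDiffAt ℝ 2 f x) (ξ η : C2) :
    D2 (fun y => f y ^ 2) x ξ η = 2 * f x * D2 f x ξ η + 2 * (fderiv ℝ f x ξ * fderiv ℝ f x η) := by
  obtain ⟨h1, h2⟩ := C2_diff f x hf
  have h0 : DifferentiableAt ℝ f x := h1.self_of_nhds
  have h3 : fderiv ℝ (fun y => f y ^ 2) =ᶠ[𝓝 x] fun y => (2 * f y) • fderiv ℝ f y := by
    filter_upwards [h1] with y hy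
    have e := (hy.hasFDerivAt.pow 2).fderiv
    rw [e]
    simp
  unfold D2
  rw [h3.fderiv_eq]
  have e2 := ((h0.hasFDerivAt.const_mul 2).smul h2.hasFDerivAt).fderiv
  have e3 : fderiv ℝ (fun y => (2 * f y) • fderiv ℝ f y) x =
    (2 * f x) • fderiv ℝ (fderiv ℝ f) x + (((2 : ℝ) • fderiv ℝ f x).smulRight (fderiv ℝ f x)) := e2
  rw [e3]
  simp
  ring

theorem C2_lapcomb (u u' : C2 → ℝ) (x : C2) (a b : ℝ) (hu : ContDiffAt ℝ 2 u x)
    (hu' : ContDiffAt ℝ 2 u' x) (ξ : C2) :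
    lap (fun y => a * u y + b * u' y) x ξ = a * lap u x ξ + b * lap u' x ξ := by
  rw [lap, lap, lap, C2_comb u u' x a b hu hu', C2_comb u u' x a b hu hu']
  ring

theorem C2_thm : C2_stmt := by
  have hpi : 0 < 4 * π ^ 2 := by positivity
  refine ⟨?_, ?_, ?_, ?_, ?_, ?_, ?_⟩
  · -- dependence on the form
    intro u u' v x hu hu' h
    have h1 : hA u x = hA u' x := h e1
    have h2 : hC u x = hC u' x := h e2
    have h3 : hB u x = hB u' x := by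
      have := h ((⟨1, 0⟩ : ℂ), (⟨1, 0⟩ : ℂ))
      rw [C2_lap u x hu, C2_lap u' x hu', h1, h2] at this
      linarith
    have h4 : hB' u x = hB' u' x := by
      have := h ((⟨1, 0⟩ : ℂ), (⟨0, 1⟩ : ℂ))
      rw [C2_lap u x hu, C2_lap u' x hu', h1, h2] at this
      linarith
    rw [dens, dens, h1, h2, h3, h4]
  · -- nonnegativity
    intro u v x hu hv h h'
    obtain ⟨a1, a2, a3⟩ := C2_coef u x hu h
    obtain ⟨b1, b2, b3⟩ := C2_coef v x hv h'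
    exact div_nonneg (C2_pair _ _ _ _ _ _ _ _ a1 a2 b1 b2 a3 b3) hpi.le
  · -- positivity
    intro u v x hu hv h h'
    have key : ∀ w : C2 → ℝ, ContDiffAt ℝ 2 w x → (∀ ξ, ξ ≠ 0 → 0 < lap w x ξ) →
        0 < hA w x ∧ 0 < hC w x ∧ hB w x ^ 2 + hB' w x ^ 2 < hA w x * hC w x := by
      intro w hw hlap
      refine C2_pd _ _ _ _ fun a1 b1 a2 b2 hne => ?_
      rw [← C2_lap w x hw]
      apply hlap
      intro h0
      apply hne
      have e1 := congrArg Prod.fst h0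
      have e2 := congrArg Prod.snd h0
      exact ⟨congrArg Complex.re e1, congrArg Complex.im e1, congrArg Complex.re e2,
        congrArg Complex.im e2⟩
    obtain ⟨a1, a2, a3⟩ := key u hu h
    obtain ⟨b1, b2, b3⟩ := key v hv h'
    exact div_pos (C2_pair_pos _ _ _ _ _ _ _ _ a1 a2 b1 b2 a3 b3) hpi
  · -- monotonicity
    intro u u' v x hu hu' hv h h'
    have hc : 0 ≤ hA u' x - hA u x ∧ 0 ≤ hC u' x - hC u x ∧
        (hB u' x - hB u x) ^ 2 + (hB' u' x - hB' u x) ^ 2 ≤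
          (hA u' x - hA u x) * (hC u' x - hC u x) := by
      refine C2_psd _ _ _ _ fun a1 b1 a2 b2 => ?_
      have := h ((⟨a1, b1⟩ : ℂ), (⟨a2, b2⟩ : ℂ))
      rw [C2_lap u x hu, C2_lap u' x hu'] at this
      linarith
    obtain ⟨a1, a2, a3⟩ := hc
    obtain ⟨b1, b2, b3⟩ := C2_coef v x hv h'
    have := C2_pair _ _ _ _ _ _ _ _ a1 a2 b1 b2 a3 b3
    rw [dens, dens]
    apply div_le_div_of_nonneg_right _ hpi.le
    linarith
  · -- linearity
    intro u u' v x a b hu hu'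
    refine ⟨fun ξ => C2_lapcomb u u' x a b hu hu' ξ, ?_⟩
    have h1 : hA (fun y => a * u y + b * u' y) x = a * hA u x + b * hA u' x :=
      C2_lapcomb u u' x a b hu hu' e1
    have h2 : hC (fun y => a * u y + b * u' y) x = a * hC u x + b * hC u' x :=
      C2_lapcomb u u' x a b hu hu' e2
    have h3 : hB (fun y => a * u y + b * u' y) x = a * hB u x + b * hB u' x := by
      rw [hB, hB, hB, C2_comb u u' x a b hu hu', C2_comb u u' x a b hu hu']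
      ring
    have h4 : hB' (fun y => a * u y + b * u' y) x = a * hB' u x + b * hB' u' x := by
      rw [hB', hB', hB', C2_comb u u' x a b hu hu', C2_comb u u' x a b hu hu']
      ring
    rw [dens, dens, dens, h1, h2, h3, h4]
    ring
  · -- symmetry
    intro u v x
    rw [dens, dens]
    ring
  · -- squares
    intro f v x hf hv h
    obtain ⟨b1, b2, b3⟩ := C2_coef v x hv h
    set p1 := fderiv ℝ f x e1 with hp1
    set q1 := fderiv ℝ f x (I • e1) with hq1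
    set p2 := fderiv ℝ f x e2 with hp2
    set q2 := fderiv ℝ f x (I • e2) with hq2
    have h1 : hA (fun y => f y ^ 2) x = 2 * f x * hA f x + 2 * (p1 ^ 2 + q1 ^ 2) := by
      rw [hA, hA, lap, lap, C2_sq f x hf, C2_sq f x hf]
      ring
    have h2 : hC (fun y => f y ^ 2) x = 2 * f x * hC f x + 2 * (p2 ^ 2 + q2 ^ 2) := by
      rw [hC, hC, lap, lap, C2_sq f x hf, C2_sq f x hf]
      ring
    have h3 : hB (fun y => f y ^ 2) x = 2 * f x * hB f x + 2 * (p1 * p2 + q1 * q2) := by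
      rw [hB, hB, C2_sq f x hf, C2_sq f x hf]
      ring
    have h4 : hB' (fun y => f y ^ 2) x = 2 * f x * hB' f x + 2 * (p1 * q2 - q1 * p2) := by
      rw [hB', hB', C2_sq f x hf, C2_sq f x hf]
      ring
    have h5 := C2_pair (2 * (p1 ^ 2 + q1 ^ 2)) (2 * (p2 ^ 2 + q2 ^ 2)) (2 * (p1 * p2 + q1 * q2))
      (2 * (p1 * q2 - q1 * p2)) _ _ _ _ (by positivity) (by positivity) b1 b2 (by nlinarith) b3
    rw [dens, dens, h1, h2, h3, h4, mul_div_assoc']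
    apply div_le_div_of_nonneg_right _ hpi.le
    linarith

end

end MAP
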