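import Pool.Agent.helper50.MA.SpecF

/-!
# PROJECT ma (MP_0012ff_an), module F0: weak convergence tools
-/

set_option autoImplicit false

open MeasureTheory Set Filter Topology
open scoped ContDiff Real

namespace MAP

noncomputable section

theorem F0_closed {X : Type} [TopologicalSpace X] [CompactSpace X] [T2Space X]
    [SecondCountableTopology X] [MeasurableSpace X] [BorelSpace X]
    {ι : Type} (l : Filter ι) (ν : ι → Measure X) (μ : Measure X)
    (hν : ∀ i, IsFiniteMeasure (ν i)) (hμ : IsFiniteMeasure μ)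
    (hconv : ∀ h : X → ℝ, Continuous h →
      Tendsto (fun i => ∫ x, h x ∂ν i) l (𝓝 (∫ x, h x ∂μ)))
    (F : Set X) (hF : IsClosed F) (ε : ℝ) (hε : 0 < ε) :
    ∀ᶠ i in l, (ν i).real F ≤ μ.real F + ε := by
  have := hν
  have : TopologicalSpace.MetrizableSpace X := inferInstance
  obtain ⟨U, hFU, hU, hUF⟩ := F.exists_isOpen_lt_add (μ := μ) (measure_ne_top μ F)
    (ε := ENNReal.ofReal (ε / 2)) (by simpa using hε)
  have hUF' : μ.real U ≤ μ.real F + ε / 2 := by
    have h1 : μ.real U ≤ (μ F + ENNReal.ofReal (ε / 2)).toReal :=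
      ENNReal.toReal_mono (by finiteness) hUF.le
    rwa [ENNReal.toReal_add (measure_ne_top μ F) ENNReal.ofReal_ne_top,
      ENNReal.toReal_ofReal (by positivity)] at h1
  have hdisj : Disjoint Uᶜ F := by
    rw [Set.disjoint_left]
    intro x hx hx'
    exact hx (hFU hx')
  obtain ⟨f, hf0, hf1, hf⟩ := exists_continuous_zero_one_of_isClosed hU.isClosed_compl hF hdisj
  have hfc : Continuous fun x => f x := f.continuous
  have hint : ∀ m : Measure X, IsFiniteMeasure m → Integrable (fun x => f x) m := by
    intro m hm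
    refine Integrable.of_bound hfc.aestronglyMeasurable 1 (ae_of_all _ fun x => ?_)
    rw [Real.norm_eq_abs, abs_of_nonneg (hf x).1]
    exact (hf x).2
  have h1 : ∀ i, (ν i).real F ≤ ∫ x, f x ∂ν i := by
    intro i
    rw [← integral_indicator_one hF.measurableSet]
    refine integral_mono ?_ (hint _ (hν i)) fun x => ?_
    · exact (integrable_const (1 : ℝ)).indicator hF.measurableSet
    · by_cases hx : x ∈ F
      · simp only [indicator_of_mem hx, Pi.one_apply]
        exact (hf1 hx).ge
      · simp only [indicator_of_notMem hx]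
        exact (hf x).1
  have h2 : ∫ x, f x ∂μ ≤ μ.real U := by
    rw [← integral_indicator_one hU.measurableSet]
    refine integral_mono (hint _ hμ) ?_ fun x => ?_
    · exact (integrable_const (1 : ℝ)).indicator hU.measurableSet
    · by_cases hx : x ∈ U
      · simp only [indicator_of_mem hx, Pi.one_apply]
        exact (hf x).2
      · simp only [indicator_of_notMem hx]
        exact (hf0 hx).le
  have h3 := hconv (fun x => f x) hfc
  have h4 : ∀ᶠ i in l, ∫ x, f x ∂ν i < ∫ x, f x ∂μ + ε / 2 :=
    h3.eventually_lt_const (by linarith)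
  filter_upwards [h4] with i hi
  linarith [h1 i]

theorem F0 : F0_stmt := by
  intro X _ _ _ _ _ _ ι l ν μ hν hμ hconv
  refine ⟨fun F hF ε hε => F0_closed l ν μ hν hμ hconv F hF ε hε, ?_⟩
  intro U hU ε hε
  have := hν
  have h1 := F0_closed l ν μ hν hμ hconv Uᶜ hU.isClosed_compl (ε / 2) (by linarith)
  have h2 := hconv (fun _ => (1 : ℝ)) continuous_const
  have h3 : ∀ᶠ i in l, ∫ x, (1 : ℝ) ∂μ - ε / 2 < ∫ x, (1 : ℝ) ∂ν i :=
    h2.eventually_const_lt (by linarith)
  filter_upwards [h1, h3] with i hi hi'
  simp only [integral_const, smul_eq_mul, mul_one] at hi'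
  have h4 : (ν i).real Uᶜ = (ν i).real univ - (ν i).real U := measureReal_compl hU.measurableSet
  have h5 : μ.real Uᶜ = μ.real univ - μ.real U := measureReal_compl hU.measurableSet
  rw [h4, h5] at hi
  linarith

end

end MAP
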